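import Pool.Agent.BEO.Stmts

/-!
# Squad BEO, row ORO: orthogonality
-/

set_option autoImplicit false

namespace Pool.Agent.BEO.H49

open Set Filter Topology MeasureTheory
open scoped InnerProductSpace ENNReal
open Pool.Agent.BE01 Pool.Agent.BEO

theorem dom_BB {d : ℕ} {R : ℝ} (hR : 0 < R) : Dom (BB d R) :=
  ⟨Metric.isOpen_ball, Metric.isBounded_ball, ⟨0, Metric.mem_ball_self hR⟩⟩

instance finite_mu (d : ℕ) (R : ℝ) : IsFiniteMeasure (mu (BB d R)) := by
  unfold mu
  refine ⟨?_⟩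
  rw [Measure.restrict_apply_univ]
  exact measure_ball_lt_top

theorem norm_lt_of_mem {d : ℕ} {R : ℝ} {x : En d} (hx : x ∈ BB d R) : ‖x‖ < R := by
  unfold BB at hx
  simpa using hx

theorem integrable_ev (EVO : EvoStmt) {d : ℕ} {R : ℝ} (u : Lp ℝ 2 (mu (BB d R))) (P : Pl d) :
    Integrable (fun x => u x * ev P x) (mu (BB d R)) := by
  obtain ⟨hsm, -, -, -, -, -, -, hbd⟩ := EVO d
  obtain ⟨C, hC⟩ := hbd P R
  have h1 : Integrable (fun x => u x) (mu (BB d R)) :=
    (Lp.memLp u).integrable (by norm_num)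
  refine h1.mul_bdd (c := C) (hsm P).continuous.aestronglyMeasurable ?_
  unfold mu BB
  rw [ae_restrict_iff' Metric.isOpen_ball.measurableSet]
  refine Eventually.of_forall fun x hx => ?_
  rw [Real.norm_eq_abs]
  exact hC x (norm_lt_of_mem hx).le

/-- row ORO -/
theorem oro (COO : CooStmt) (EVO : EvoStmt) (IBO : IboStmt) (WEO : WeoStmt) : OroStmt := by
  intro d R l u Q hd hR hu
  obtain ⟨hsm, -, hadd, hmul, hCc, hrho, hX, hbd⟩ := EVO d
  set p : Pl d := (rho d - MvPolynomial.C (R ^ 2)) * Q with hp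
  -- value of p
  have hval : ∀ x, ev p x = (‖x‖ ^ 2 - R ^ 2) * ev Q x := by
    intro x
    have h1 : ev (rho d - MvPolynomial.C (R ^ 2)) x = ‖x‖ ^ 2 - R ^ 2 := by
      have h2 : ev (rho d - MvPolynomial.C (R ^ 2)) x =
          ev (rho d) x - ev (MvPolynomial.C (R ^ 2)) x := by
        unfold ev
        rw [map_sub]
      rw [h2, hrho, hCc]
    rw [hp, hmul, h1]
  obtain ⟨C, hC⟩ := hbd Q R
  obtain ⟨f, F, hfF, hf, hF⟩ := COO d R C (ev p) hd hR (hsm p) (by
    intro x hx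
    have hx' := norm_lt_of_mem hx
    have h1 : |ev Q x| ≤ C := hC x hx'.le
    have h2 : 0 ≤ R ^ 2 - ‖x‖ ^ 2 := by
      have h3 := norm_nonneg x
      nlinarith
    have h6 : |ev p x| = (R ^ 2 - ‖x‖ ^ 2) * |ev Q x| := by
      rw [hval, abs_mul, abs_sub_comm, abs_of_nonneg h2]
    rw [h6]
    calc (R ^ 2 - ‖x‖ ^ 2) * |ev Q x| ≤ (R ^ 2 - ‖x‖ ^ 2) * C := by gcongr
      _ = C * (R ^ 2 - ‖x‖ ^ 2) := by ring)
  obtain ⟨G, hG, hw⟩ := hu
  have hdom : Dom (BB d R) := dom_BB hR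
  -- test with H10
  have hwex := WEO d (BB d R) f (l • u) G F hdom (by
    intro ψ hψ
    rw [hw ψ hψ, ← integral_const_mul]
    refine integral_congr_ae ?_
    filter_upwards [Lp.coeFn_smul l u] with x hx
    rw [hx]
    simp only [Pi.smul_apply, smul_eq_mul]
    ring) hfF
  have h1 : ∫ x, ⟪G x, F x⟫_ℝ ∂(mu (BB d R)) =
      ∫ x, ⟪G x, gradient (ev p) x⟫_ℝ ∂(mu (BB d R)) := by
    refine integral_congr_ae ?_
    filter_upwards [hF] with x hx
    rw [hx]
  have h2 : ∫ x, (l • u : Lp ℝ 2 (mu (BB d R))) x * f x ∂(mu (BB d R)) =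
      ∫ x, l * (u x * ev p x) ∂(mu (BB d R)) := by
    refine integral_congr_ae ?_
    filter_upwards [Lp.coeFn_smul l u, hf] with x hx hx'
    rw [hx, hx']
    simp only [Pi.smul_apply, smul_eq_mul]
    ring
  have h3 := IBO d (BB d R) u G p hdom hG
  rw [h1, h3, h2] at hwex
  have h4 : (fun x => u x * ev (lap p + MvPolynomial.C l * p) x) =
      fun x => u x * ev (lap p) x + l * (u x * ev p x) := by
    funext x
    rw [hadd, hmul, hCc]
    ring
  rw [h4, integral_add (integrable_ev EVO u _) ((integrable_ev EVO u _).const_mul l), ← hwex]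
  ring

end Pool.Agent.BEO.H49
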